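import Pool.Agent.Y377.IL.Stm

/-!
Project IL (helper377): the exponential of a derivation; locally nilpotent derivations on finite
extensions.
-/

set_option autoImplicit false

namespace Pool.Agent.Y858.IL

open Pool.Agent.Y377.EL Pool.Agent.Y377.IL

section

variable {K : Type} [Field K] [Algebra ℂ K] (δ : Derivation ℂ K K)

lemma cz (K : Type) [Field K] [Algebra ℂ K] : CharZero K :=
  charZero_of_injective_algebraMap (algebraMap ℂ K).injective

lemma fact_ne (K : Type) [Field K] [Algebra ℂ K] (n : ℕ) : (n.factorial : K) ≠ 0 := by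
  have := cz K
  exact_mod_cast Nat.factorial_ne_zero n

lemma coeff_expD (x : K) (n : ℕ) :
    PowerSeries.coeff n (expD δ x) = (en δ ^ n) x / (n.factorial : K) := by
  unfold expD
  rw [PowerSeries.coeff_mk]

lemma en_succ (x : K) (n : ℕ) : (en δ ^ (n + 1)) x = (en δ ^ n) (δ x) := by
  rw [pow_succ]
  rfl

lemma der_expD (x : K) : PowerSeries.derivative K (expD δ x) = expD δ (δ x) := by
  have := cz K
  ext n
  rw [PowerSeries.coeff_derivative, coeff_expD, coeff_expD, en_succ, Nat.factorial_succ]
  have h1 := fact_ne K n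
  have h2 : ((n : K) + 1) ≠ 0 := by exact_mod_cast Nat.succ_ne_zero n
  push_cast
  field_simp

lemma expD_add (x y : K) : expD δ (x + y) = expD δ x + expD δ y := by
  ext n
  rw [map_add, coeff_expD, coeff_expD, coeff_expD, map_add, add_div]

lemma expD_mul (x y : K) : expD δ (x * y) = expD δ x * expD δ y := by
  have hcz := cz K
  have key : ∀ n : ℕ, ∀ x y : K, PowerSeries.coeff n (expD δ (x * y)) =
      PowerSeries.coeff n (expD δ x * expD δ y) := by
    intro n
    induction n with
    | zero =>
      intro x y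
      simp only [PowerSeries.coeff_zero_eq_constantCoeff, map_mul]
      simp only [← PowerSeries.coeff_zero_eq_constantCoeff_apply, coeff_expD, pow_zero,
        Nat.factorial_zero, Nat.cast_one, div_one, Module.End.one_apply]
    | succ n ih =>
      intro x y
      have h2 : ((n : K) + 1) ≠ 0 := by exact_mod_cast Nat.succ_ne_zero n
      refine mul_right_cancel₀ h2 ?_
      rw [← PowerSeries.coeff_derivative, ← PowerSeries.coeff_derivative, der_expD,
        Derivation.leibniz, Derivation.leibniz, der_expD, der_expD, expD_add, map_add, map_add]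
      simp only [smul_eq_mul]
      rw [ih x (δ y), ih y (δ x)]
  ext n
  exact key n x y

lemma expD_one : expD δ 1 = 1 := by
  ext n
  rw [coeff_expD]
  cases n with
  | zero => simp
  | succ n =>
    rw [en_succ, Derivation.map_one_eq_zero, map_zero, zero_div, PowerSeries.coeff_one,
      if_neg (Nat.succ_ne_zero n)]

lemma expD_alg (c : ℂ) : expD δ (algebraMap ℂ K c) = algebraMap ℂ (PowerSeries K) c := by
  ext n
  rw [coeff_expD]
  have h1 : algebraMap ℂ (PowerSeries K) c = PowerSeries.C (algebraMap ℂ K c) :=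
    PowerSeries.algebraMap_apply
  rw [h1, PowerSeries.coeff_C]
  cases n with
  | zero => simp
  | succ n =>
    rw [en_succ, Derivation.map_algebraMap, map_zero, zero_div, if_neg (Nat.succ_ne_zero n)]

end

/-- S_EXP -/
theorem t_EXP : S_EXP := by
  intro K _ _ δ
  have h0 : expD δ 0 = 0 := by
    ext n
    rw [coeff_expD, map_zero, zero_div, map_zero]
  exact ⟨{ toFun := expD δ
           map_one' := expD_one δ
           map_mul' := expD_mul δ
           map_zero' := h0
           map_add' := expD_add δ
           commutes' := expD_alg δ }, fun x => rfl, fun x => der_expD δ x⟩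

/-- S_APN -/
theorem t_APN : S_EXP → S_POLY → S_APN := by
  intro hE hP K _ _ δ B S hBS hFG hB hS hnil
  have hcz := cz K
  obtain ⟨e, he, hed⟩ := hE K δ
  obtain ⟨ι, hι⟩ : ∃ ι : Polynomial K →+* PowerSeries K,
    ι = Polynomial.coeToPowerSeries.ringHom (R := K) := ⟨_, rfl⟩
  have hιa : ∀ p : Polynomial K, ι p = (p : PowerSeries K) := fun p => by
    rw [hι]
    rfl
  have hinj : Function.Injective ι := by
    intro p q h
    rw [hιa, hιa] at h
    exact Polynomial.coe_injective K h
  -- locally nilpotent elements have polynomial exponentials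
  have hpol : ∀ x : K, (∃ k : ℕ, (en δ ^ k) x = 0) → ∃ p : Polynomial K, ι p = e x := by
    rintro x ⟨k, hk⟩
    refine ⟨PowerSeries.trunc k (e x), ?_⟩
    rw [hιa]
    ext n
    rw [Polynomial.coeff_coe, PowerSeries.coeff_trunc]
    split_ifs with h
    · rfl
    · rw [he, coeff_expD]
      have h1 : (en δ ^ n) x = 0 := by
        have h2 : n = (n - k) + k := by omega
        rw [h2, pow_add, Module.End.mul_apply, hk, map_zero]
      rw [h1, zero_div]
  have hpol' : ∀ x : K, (∃ p : Polynomial K, ι p = e x) → ∃ k : ℕ, (en δ ^ k) x = 0 := by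
    rintro x ⟨p, hp⟩
    refine ⟨p.natDegree + 1, ?_⟩
    have h1 : PowerSeries.coeff (p.natDegree + 1) (e x) = 0 := by
      rw [← hp, hιa, Polynomial.coeff_coe]
      exact Polynomial.coeff_eq_zero_of_natDegree_lt (Nat.lt_succ_self _)
    rw [he, coeff_expD, div_eq_zero_iff] at h1
    rcases h1 with h1 | h1
    · exact h1
    · exact absurd h1 (fact_ne K _)
  obtain ⟨N, hNfg, hN⟩ := hFG
  obtain ⟨k, g, hg⟩ := Submodule.fg_iff_exists_fin_generating_family.1 hNfg
  have hgS : ∀ i, g i ∈ S := fun i => by
    rw [← hN, ← hg]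
    exact Submodule.subset_span ⟨i, rfl⟩
  have hrep : ∀ x ∈ S, ∃ c : Fin k → B, ∑ j, c j • g j = x := by
    intro x hx
    rw [← hN, ← hg] at hx
    exact Submodule.mem_span_range_iff_exists_fun B |>.1 hx
  choose c hc using fun i => hrep (δ (g i)) (hS _ (hgS i))
  have hBp : ∀ b : B, ∃ p : Polynomial K, ι p = e (b : K) := fun b => hpol b (hnil b b.2)
  choose q hq using hBp
  have hsmul : ∀ (b : B) (x : K), b • x = (b : K) * x := fun b x => rfl
  -- the coefficients as a ring homomorphism
  obtain ⟨ψ, hψ⟩ : ∃ ψ : B →+* Polynomial K, ∀ b, ι (ψ b) = e (b : K) := by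
    refine ⟨{ toFun := q
              map_one' := hinj (by rw [hq, map_one]; simp)
              map_mul' := fun a b => hinj (by rw [map_mul, hq, hq, hq]; simp)
              map_zero' := hinj (by rw [hq, map_zero]; simp)
              map_add' := fun a b => hinj (by rw [map_add, hq, hq, hq]; simp) }, hq⟩
  have hint : ∀ i, ∃ P : Polynomial (Polynomial K), P.Monic ∧ P.eval₂ ι (e (g i)) = 0 := by
    intro i
    obtain ⟨S', hS'⟩ : ∃ S' : Subalgebra B K, ∀ x, x ∈ S' ↔ x ∈ S :=
      ⟨{ carrier := S
         mul_mem' := fun ha hb => S.mul_mem ha hb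
         add_mem' := fun ha hb => S.add_mem ha hb
         algebraMap_mem' := fun b => hBS b.2 }, fun x => Iff.rfl⟩
    have hS'N : Subalgebra.toSubmodule S' = N := by
      ext x
      rw [Subalgebra.mem_toSubmodule, hS', hN]
    have h1 : IsIntegral B (g i) :=
      IsIntegral.of_mem_of_fg S' (by rw [hS'N]; exact hNfg) (g i) ((hS' _).2 (hgS i))
    obtain ⟨p, hpm, hp⟩ := h1
    refine ⟨p.map ψ, hpm.map ψ, ?_⟩
    rw [Polynomial.eval₂_map]
    have h2 : ι.comp ψ = (e : K →+* PowerSeries K).comp (algebraMap B K) := by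
      ext b : 1
      exact hψ b
    rw [h2, ← RingHom.coe_coe e, ← Polynomial.hom_eval₂, hp, map_zero]
  have hsys : ∀ i, PowerSeries.derivative K (e (g i)) =
      ∑ j, ((q (c i j) : Polynomial K) : PowerSeries K) * e (g j) := by
    intro i
    rw [hed, ← hc i, map_sum]
    refine Finset.sum_congr rfl fun j _ => ?_
    rw [hsmul, map_mul, ← hιa, hq]
  have hfin := hP K k (fun i j => q (c i j)) (fun i => e (g i)) hsys
    (fun i => by rw [← hι]; exact hint i)
  intro s hs
  apply hpol'
  obtain ⟨d, hd⟩ := hrep s hs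
  choose r hr using hfin
  refine ⟨∑ j, ψ (d j) * r j, ?_⟩
  rw [map_sum, ← hd, map_sum]
  refine Finset.sum_congr rfl fun j _ => ?_
  rw [map_mul, hψ, hιa, ← hr, hsmul, map_mul]

end Pool.Agent.Y858.IL
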